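import Pool.Agent.H633R2.FptPad
import Pool.Agent.H633R2.CtrDefs

/-!
# General facts on graphs given by 0/1 matrices
-/

namespace Pool.Agent.NPC.X247

open Pool.Agent.H633R2

/-- adjacency in the graph of a matrix, for vertices given as numbers -/
def edg (M : List (List Bool)) (i j : ℕ) : Bool :=
  !(decide (i = j)) && (entry M i j || entry M j i)

theorem edg_iff (M : List (List Bool)) (i j : Fin M.length) :
    edg M i j = true ↔ (graphOf M).Adj i j := by
  simp only [edg, graphOf, Bool.and_eq_true, Bool.not_eq_true', decide_eq_false_iff_not,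
    Bool.or_eq_true, ne_eq, Fin.ext_iff]

section Poly

variable {α : Type} [TEnc α]

theorem poly_entry {M : α → List (List Bool)} {i j : α → ℕ} (hM : Poly M)
    (hi : Poly i) (hj : Poly j) : Poly (fun a => entry (M a) (i a) (j a)) :=
  Poly.getD (Poly.getD hM hi (Poly.const _)) hj (Poly.const _)

theorem poly_edg {M : α → List (List Bool)} {i j : α → ℕ} (hM : Poly M) (hi : Poly i)
    (hj : Poly j) : Poly (fun a => edg (M a) (i a) (j a)) :=
  Poly.and (Poly.not (Poly.decide_eq hi hj)) (Poly.or (poly_entry hM hi hj) (poly_entry hM hj hi))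

theorem poly_testBit {n i : α → ℕ} (hn : Poly n) (hi : Poly i) :
    Poly (fun a => (n a).testBit (i a)) :=
  (Poly.getD (d := fun _ => false) (Poly.natBits hn) hi (Poly.const _)).congr fun a => by
    rw [Nat.testBit_eq_inth]; rfl

end Poly

/-! ### Matrices of graphs with a given list of vertices -/

section MatOf

variable {τ : Type}

/-- the matrix of the graph with vertices `l` and adjacency `adj` -/
def matOf (l : List τ) (adj : τ → τ → Bool) : List (List Bool) :=
  l.map fun p => l.map fun q => adj p q

theorem matOf_length (l : List τ) (adj : τ → τ → Bool) : (matOf l adj).length = l.length := by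
  simp [matOf]

/-- the vertex with a given number -/
def vx (l : List τ) (adj : τ → τ → Bool) (i : Fin (matOf l adj).length) : τ :=
  l.get (Fin.cast (matOf_length l adj) i)

theorem vx_mem (l : List τ) (adj : τ → τ → Bool) (i : Fin (matOf l adj).length) :
    vx l adj i ∈ l := List.get_mem _ _

theorem exists_vx {l : List τ} (adj : τ → τ → Bool) {p : τ} (h : p ∈ l) :
    ∃ i, vx l adj i = p := by
  obtain ⟨i, hi⟩ := List.get_of_mem h
  exact ⟨Fin.cast (matOf_length l adj).symm i, hi⟩

theorem vx_injective {l : List τ} (hl : l.Nodup) (adj : τ → τ → Bool) :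
    Function.Injective (vx l adj) := by
  intro i j h
  have := List.nodup_iff_injective_get.1 hl h
  exact Fin.ext (by simpa [Fin.ext_iff] using this)

theorem entry_matOf (l : List τ) (adj : τ → τ → Bool) (i j : Fin (matOf l adj).length) :
    entry (matOf l adj) i j = adj (vx l adj i) (vx l adj j) := by
  have hi : (i : ℕ) < l.length := lt_of_lt_of_eq i.2 (matOf_length l adj)
  have hj : (j : ℕ) < l.length := lt_of_lt_of_eq j.2 (matOf_length l adj)
  unfold entry
  rw [List.getD_eq_getElem _ _ i.2]
  have h1 : (matOf l adj)[(i : ℕ)] = l.map fun q => adj (vx l adj i) q := by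
    simp only [matOf, List.getElem_map, vx, List.get_eq_getElem, Fin.val_cast]
  rw [h1, List.getD_eq_getElem _ _ (by simpa using hj)]
  simp only [List.getElem_map, vx, List.get_eq_getElem, Fin.val_cast]

theorem adj_matOf {l : List τ} (hl : l.Nodup) (adj : τ → τ → Bool)
    (i j : Fin (matOf l adj).length) :
    (graphOf (matOf l adj)).Adj i j ↔ vx l adj i ≠ vx l adj j ∧
      (adj (vx l adj i) (vx l adj j) = true ∨ adj (vx l adj j) (vx l adj i) = true) := by
  rw [show (graphOf (matOf l adj)).Adj i j ↔ i ≠ j ∧ (entry (matOf l adj) i j = true ∨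
    entry (matOf l adj) j i = true) from Iff.rfl, entry_matOf, entry_matOf,
    (vx_injective hl adj).ne_iff]

/-- the numbers of the vertices with a given property -/
def idxOf [Inhabited τ] (l : List τ) (p : τ → Bool) : List ℕ :=
  (List.range l.length).filter fun i => p (l.getD i default)

theorem mem_idxOf [Inhabited τ] {l : List τ} {p : τ → Bool} (adj : τ → τ → Bool)
    (i : Fin (matOf l adj).length) : (i : ℕ) ∈ idxOf l p ↔ p (vx l adj i) = true := by
  have hi : (i : ℕ) < l.length := lt_of_lt_of_eq i.2 (matOf_length l adj)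
  simp only [idxOf, List.mem_filter, List.mem_range, hi, true_and]
  rw [List.getD_eq_getElem _ _ hi]
  simp only [vx, List.get_eq_getElem, Fin.val_cast]

theorem poly_matOf {α : Type} [TEnc α] [TEnc τ] {l : α → List τ} {adj : α → τ → τ → Bool}
    (hl : Poly l) (hadj : Poly (fun q : (α × τ) × τ => adj q.1.1 q.1.2 q.2)) :
    Poly (fun a => matOf (l a) (adj a)) := by
  refine Poly.map (F := fun a p => (l a).map fun q => adj a p q) hl ?_
  exact Poly.map (F := fun (x : α × τ) q => adj x.1 x.2 q) (hl.comp (Poly.fst Poly.id)) hadj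

theorem poly_idxOf {α : Type} [TEnc α] [TEnc τ] [Inhabited τ] {l : α → List τ}
    {p : α → τ → Bool} (hl : Poly l) (hp : Poly (fun q : α × τ => p q.1 q.2)) :
    Poly (fun a => idxOf (l a) (p a)) := by
  refine Poly.filter (p := fun a i => p a ((l a).getD i default)) (Poly.range_length hl) ?_
  exact hp.comp (Poly.pair (Poly.fst Poly.id) (Poly.getD (hl.comp (Poly.fst Poly.id))
    (Poly.snd Poly.id) (Poly.const _)))

end MatOf

/-! ### Balls -/

/-- `u` and `v` are at distance at most `r` -/
def near {V : Type} (G : SimpleGraph V) : ℕ → V → V → Prop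
  | 0, u, v => u = v
  | r + 1, u, v => near G r u v ∨ ∃ w, G.Adj u w ∧ near G r w v

theorem near_mono {V : Type} {G : SimpleGraph V} {r s : ℕ} (h : r ≤ s) {u v : V}
    (hn : near G r u v) : near G s u v := by
  induction h with
  | refl => exact hn
  | step _ ih => exact Or.inl ih

theorem near_of_walk {V : Type} {G : SimpleGraph V} {u v : V} (p : G.Walk u v) :
    near G p.length u v := by
  induction p with
  | nil => rfl
  | cons h p ih => exact Or.inr ⟨_, h, ih⟩

theorem near_iff {V : Type} {G : SimpleGraph V} (r : ℕ) (u v : V) :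
    near G r u v ↔ G.edist u v ≤ r := by
  constructor
  · induction r generalizing u with
    | zero => intro h; rw [show u = v from h]; simp
    | succ r ih =>
      rintro (h | ⟨w, h1, h2⟩)
      · exact (ih u h).trans (by exact_mod_cast Nat.le_succ r)
      · have h3 := G.edist_triangle (u := u) (v := w) (w := v)
        have h4 := SimpleGraph.edist_eq_one_iff_adj.2 h1
        rw [h4] at h3
        refine h3.trans ((add_le_add_right (ih w h2) 1).trans ?_)
        push_cast
        rw [add_comm]
  · intro h
    obtain ⟨p, hp⟩ := SimpleGraph.exists_walk_of_edist_ne_top (G := G) (u := u) (v := v)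
      (ne_top_of_le_ne_top (by simp) h)
    rw [← hp] at h
    exact near_mono (by exact_mod_cast h) (near_of_walk p)

theorem near_symm {V : Type} {G : SimpleGraph V} {r : ℕ} {u v : V} (h : near G r u v) :
    near G r v u := by
  rw [near_iff] at h ⊢
  rwa [SimpleGraph.edist_comm]

theorem near_twin {V : Type} {G : SimpleGraph V} {w w' : V} (hw : ∀ z, G.Adj w z ↔ G.Adj w' z)
    {v : V} (hv : v ≠ w') : ∀ {r : ℕ}, near G r w' v → near G r w v
  | 0, h => absurd (show w' = v from h).symm hv
  | _ + 1, Or.inl h => Or.inl (near_twin hw hv h)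
  | _ + 1, Or.inr ⟨z, h1, h2⟩ => Or.inr ⟨z, (hw z).2 h1, h2⟩

/-- Boolean version of `near` for numbered vertices. -/
def inBall (M : List (List Bool)) : ℕ → ℕ → ℕ → Bool
  | 0, u, v => decide (u = v)
  | r + 1, u, v => inBall M r u v ||
      (List.range M.length).any fun w => edg M u w && inBall M r w v

theorem inBall_iff (M : List (List Bool)) (r : ℕ) (u v : Fin M.length) :
    inBall M r u v = true ↔ near (graphOf M) r u v := by
  induction r generalizing u with
  | zero => simp [inBall, near, Fin.ext_iff]
  | succ r ih =>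
    simp only [inBall, near, Bool.or_eq_true, ih, List.any_eq_true, List.mem_range,
      Bool.and_eq_true]
    refine or_congr Iff.rfl ⟨?_, ?_⟩
    · rintro ⟨w, hw, h1, h2⟩
      exact ⟨⟨w, hw⟩, (edg_iff M u ⟨w, hw⟩).1 h1, (ih ⟨w, hw⟩).1 h2⟩
    · rintro ⟨w, h1, h2⟩
      exact ⟨w, w.2, (edg_iff M u w).2 h1, (ih w).2 h2⟩

theorem poly_inBall {α : Type} [TEnc α] (r : ℕ) {M : α → List (List Bool)} {u v : α → ℕ}
    (hM : Poly M) (hu : Poly u) (hv : Poly v) : Poly (fun a => inBall (M a) r (u a) (v a)) := by
  induction r generalizing α with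
  | zero => exact Poly.decide_eq hu hv
  | succ r ih =>
    refine Poly.or (ih hM hu hv) ?_
    refine Poly.any (p := fun a w => edg (M a) (u a) w && inBall (M a) r w (v a))
      (Poly.range_length hM) ?_
    exact Poly.and (poly_edg (hM.comp (Poly.fst Poly.id)) (hu.comp (Poly.fst Poly.id))
      (Poly.snd Poly.id)) (ih (hM.comp (Poly.fst Poly.id)) (Poly.snd Poly.id)
        (hv.comp (Poly.fst Poly.id)))

end Pool.Agent.NPC.X247
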